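import Pool.Agent.H207.BT.Stm5

/-!
# Project BT: the periodic point moves holomorphically
-/

set_option autoImplicit false

open Topology Filter Metric Set

namespace Pool.Agent.H185.BT207

open Pool.Agent.H790R3.RB Pool.Agent.H211.HY Pool.Agent.H207.BT

theorem cd_hF (d : ℕ) : ContDiff ℂ 1 (fun q : CV d × (ℂ × ℂ) => hF q.1 q.2) := by
  unfold hF
  apply ContDiff.prodMk
  · apply ContDiff.sum
    intro j _
    fun_prop
  · apply ContDiff.sum
    intro j _
    fun_prop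

theorem cd_it (d n : ℕ) : ContDiff ℂ 1 (fun q : CV d × (ℂ × ℂ) => (hF q.1)^[n] q.2) := by
  induction n with
  | zero => exact contDiff_snd
  | succ n ih =>
    have h1 : (fun q : CV d × (ℂ × ℂ) => (hF q.1)^[n + 1] q.2) =
        fun q => (fun q : CV d × (ℂ × ℂ) => hF q.1 q.2) (q.1, (hF q.1)^[n] q.2) := by
      funext q
      exact Function.iterate_succ_apply' _ _ _
    rw [h1]
    exact (cd_hF d).comp (contDiff_fst.prodMk ih)

/-- the equation of the periodic points -/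
noncomputable def HH (d n : ℕ) (q : CV d × ℂ) : ℂ := cr ((hF q.1)^[n] (q.2, 1)) (q.2, 1)

theorem cd_HH (d n : ℕ) : ContDiff ℂ 1 (HH d n) := by
  have h1 : ContDiff ℂ 1 (fun q : CV d × ℂ => (hF q.1)^[n] (q.2, (1 : ℂ))) :=
    (cd_it d n).comp (contDiff_fst.prodMk (contDiff_snd.prodMk contDiff_const))
  unfold HH cr
  have h2 := h1.fst
  have h3 := h1.snd
  exact (h2.mul contDiff_const).sub (h3.mul contDiff_snd)

theorem inv_of_ne {L : ℂ →L[ℂ] ℂ} (h : L 1 ≠ 0) : L.IsInvertible := by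
  have hL : ∀ z, L z = z * L 1 := by
    intro z
    have := L.map_smul z 1
    rwa [smul_eq_mul, mul_one, smul_eq_mul] at this
  refine ⟨ContinuousLinearEquiv.equivOfInverse L ((L 1)⁻¹ • ContinuousLinearMap.id ℂ ℂ)
    (fun z => ?_) (fun z => ?_), ?_⟩
  · change (L 1)⁻¹ * L z = z
    rw [hL z]
    field_simp
  · change L ((L 1)⁻¹ * z) = z
    rw [hL]
    field_simp
  · ext
    rfl

theorem t_MOT (h : Pool.Agent.H211.HY.S_CHO) : Pool.Agent.H207.BT.S_MOT := by
  intro d k x₀ X ρ ξ n hd hND hρ hX hX0 hn hper hrep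
  obtain ⟨-, -, -, -, hC⟩ := h
  obtain ⟨hC1, -, -, hC4, -⟩ := hC d x₀ hd hND
  have hp0 : ((ξ, 1) : ℂ × ℂ) ≠ 0 := by
    intro h0
    have := congrArg Prod.snd h0
    simp at this
  have hu0 : HH d n (x₀, ξ) = 0 := hper
  have cdf : ContDiffAt ℂ 1 (HH d n) (x₀, ξ) := (cd_HH d n).contDiffAt
  -- the iterate as a curve
  obtain ⟨g, hg⟩ : ∃ g : ℂ → ℂ × ℂ, ∀ w, g w = (hF x₀)^[n] (w, 1) := ⟨_, fun _ => rfl⟩
  have hgd : DifferentiableAt ℂ g ξ := by
    have h1 : ContDiff ℂ 1 (fun w : ℂ => (hF x₀)^[n] (w, (1 : ℂ))) :=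
      (cd_it d n).comp (contDiff_const.prodMk (contDiff_id.prodMk contDiff_const))
    have h2 : g = fun w : ℂ => (hF x₀)^[n] (w, (1 : ℂ)) := funext hg
    rw [h2]
    exact (h1.differentiable one_ne_zero).differentiableAt
  have hg' := hgd.hasDerivAt
  have hg1 : HasDerivAt (fun w => (g w).1) (deriv g ξ).1 ξ := hg'.fst
  have hg2 : HasDerivAt (fun w => (g w).2) (deriv g ξ).2 ξ := hg'.snd
  have hA : HasDerivAt (fun w => HH d n (x₀, w))
      ((deriv g ξ).1 - ((deriv g ξ).2 * ξ + (g ξ).2)) ξ := by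
    have h1 : (fun w => HH d n (x₀, w)) = fun w => (g w).1 - (g w).2 * w := by
      funext w
      rw [hg]
      simp [HH, cr]
    rw [h1]
    have h2 := hg1.sub (hg2.mul (hasDerivAt_id ξ))
    rw [mul_one] at h2
    exact h2
  -- the derivative is not zero
  have hne : (deriv g ξ).1 - ((deriv g ξ).2 * ξ + (g ξ).2) ≠ 0 := by
    intro h0
    have h1 := hC1 (fun w => (w, 1)) ξ n (differentiableAt_id.prodMk (differentiableAt_const _)) hp0
    have h2 : (fun w : ℂ => (hF x₀)^[n] (w, (1 : ℂ))) = g := (funext hg).symm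
    rw [h2] at h1
    have h3 : deriv (fun w : ℂ => ((w, 1) : ℂ × ℂ)) ξ = (1, 0) :=
      ((hasDerivAt_id ξ).prodMk (hasDerivAt_const ξ (1 : ℂ))).deriv
    have h4 : spd (fun w : ℂ => ((w, 1) : ℂ × ℂ)) ξ = 1 / (‖ξ‖ ^ 2 + 1) := by
      unfold spd
      rw [h3]
      simp [cr, N2]
    have h5 : (g ξ).1 = (g ξ).2 * ξ := by
      have : cr (g ξ) (ξ, 1) = 0 := by rw [hg]; exact hper
      unfold cr at this
      linear_combination this
    have h6 : (g ξ).2 ≠ 0 := by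
      intro h7
      apply hC4 n (ξ, 1) hp0
      rw [← hg]
      apply Prod.ext
      · rw [h5, h7, zero_mul]; rfl
      · exact h7
    have h8 : spd g ξ = 1 / (‖ξ‖ ^ 2 + 1) := by
      unfold spd
      have h9 : cr (deriv g ξ) (g ξ) = (g ξ).2 * (g ξ).2 := by
        unfold cr
        rw [h5]
        linear_combination (g ξ).2 * h0
      have h10 : N2 (g ξ) = ‖(g ξ).2‖ ^ 2 * (‖ξ‖ ^ 2 + 1) := by
        unfold N2
        rw [h5, norm_mul]
        ring
      rw [h9, h10, norm_mul]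
      have h11 : ‖(g ξ).2‖ ≠ 0 := norm_ne_zero_iff.2 h6
      have h12 : (‖ξ‖ ^ 2 + 1) ≠ 0 := by positivity
      field_simp
    rw [h8, h4] at h1
    have h13 : (0 : ℝ) < 1 / (‖ξ‖ ^ 2 + 1) := by positivity
    have h14 : (sdn x₀ n (ξ, 1) - 1) * (1 / (‖ξ‖ ^ 2 + 1)) = 0 := by linarith
    rcases mul_eq_zero.1 h14 with h15 | h15
    · linarith
    · exact h13.ne' h15
  have hinv : (fderiv ℂ (HH d n) (x₀, ξ) ∘L .inr ℂ (CV d) ℂ).IsInvertible := by
    apply inv_of_ne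
    have h1 : HasFDerivAt (HH d n) (fderiv ℂ (HH d n) (x₀, ξ)) (x₀, ξ) :=
      (cdf.differentiableAt one_ne_zero).hasFDerivAt
    have h2 : HasDerivAt (fun w : ℂ => (x₀, w)) ((0 : CV d), (1 : ℂ)) ξ :=
      (hasDerivAt_const ξ x₀).prodMk (hasDerivAt_id ξ)
    have h3 := h1.comp_hasDerivAt ξ h2
    have h4 := h3.unique hA
    have h5 : (fderiv ℂ (HH d n) (x₀, ξ) ∘L .inr ℂ (CV d) ℂ) 1 =
        fderiv ℂ (HH d n) (x₀, ξ) (0, 1) := rfl
    rw [h5, h4]
    exact hne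
  obtain ⟨Γ, hΓ⟩ : ∃ Γ, Γ = cdf.implicitFunction one_ne_zero hinv := ⟨_, rfl⟩
  have hΓ0 : Γ x₀ = ξ := by rw [hΓ]; exact cdf.implicitFunction_apply_self one_ne_zero hinv
  have hΓ1 : ∀ᶠ x in 𝓝 x₀, HH d n (x, Γ x) = 0 := by
    rw [hΓ]
    have := cdf.eventually_apply_implicitFunction one_ne_zero hinv
    rw [hu0] at this
    exact this
  have hΓ2 : ∀ᶠ x in 𝓝 x₀, DifferentiableAt ℂ Γ x := by
    have h1 : ContDiffAt ℂ 1 Γ x₀ := by
      rw [hΓ]
      exact cdf.contDiffAt_implicitFunction one_ne_zero hinv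
    filter_upwards [h1.eventually (by simp)] with y hy
    exact hy.differentiableAt one_ne_zero
  have hXc : Tendsto X (𝓝 0) (𝓝 x₀) := by
    have h1 := (hX.differentiableAt (ball_mem_nhds 0 hρ)).continuousAt
    have h2 : Tendsto X (𝓝 0) (𝓝 (X 0)) := h1
    rwa [hX0] at h2
  obtain ⟨ρ', hρ', hball⟩ := Metric.eventually_nhds_iff_ball.1 (hXc.eventually (hΓ1.and hΓ2))
  refine ⟨min ρ' ρ, lt_min hρ' hρ, min_le_right _ _, fun s => Γ (X s), ?_, ?_, ?_⟩
  · intro s hs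
    have hs1 : s ∈ ball (0 : Fin k → ℂ) ρ' := ball_subset_ball (min_le_left _ _) hs
    have hs2 : s ∈ ball (0 : Fin k → ℂ) ρ := ball_subset_ball (min_le_right _ _) hs
    have h1 := (hball s hs1).2
    have h2 : DifferentiableAt ℂ X s := hX.differentiableAt (isOpen_ball.mem_nhds hs2)
    exact (h1.comp s h2).differentiableWithinAt
  · change Γ (X 0) = ξ
    rw [hX0, hΓ0]
  · intro s hs
    have hs1 : s ∈ ball (0 : Fin k → ℂ) ρ' := ball_subset_ball (min_le_left _ _) hs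
    exact (hball s hs1).1

end Pool.Agent.H185.BT207
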